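import Mathlib

set_option autoImplicit false

namespace Pool.Agent.H.MP_af7c6a_co

open Finset

theorem exists_norm {E : Type} [NormedAddCommGroup E] [InnerProductSpace ℝ E] (W : Set E)
    (h1 : ∀ w ∈ W, 1 ≤ ‖w‖)
    (h2 : ∀ w ∈ W, ∀ v ∈ W, v = w ∨ v = -w ∨
      (inner ℝ w v) ^ 2 ≤ (‖w‖ ^ 2 - 4 * ‖w‖) * ‖v‖ ^ 2) :
    ∃ N : E → ℝ, (∀ x y, N (x + y) ≤ N x + N y) ∧ (∀ (c : ℝ) x, N (c • x) = |c| * N x) ∧
      (∀ x, ‖x‖ ≤ N x) ∧ (∀ x, N x ≤ 3 * ‖x‖) ∧ ∀ w ∈ W, N w = ⌈‖w‖⌉ + 1 / 2 := by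
  let τ : E → ℝ := fun w => ⌈‖w‖⌉ + 1 / 2
  have t1 : ∀ w, ‖w‖ ≤ τ w := fun w => by have := Int.le_ceil ‖w‖; simp only [τ]; linarith
  have t2 : ∀ w, τ w ≤ ‖w‖ + 2 := fun w => by
    have := Int.ceil_lt_add_one ‖w‖; simp only [τ]; linarith
  have t0 : ∀ w, 0 ≤ τ w := fun w => (norm_nonneg w).trans (t1 w)
  let g : Option W → E → ℝ := fun i x => match i with
    | none => ‖x‖
    | some w => τ w / ‖w.1‖ ^ 2 * |inner ℝ w.1 x|
  have gb : ∀ i x, g i x ≤ 3 * ‖x‖ := by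
    rintro (_ | ⟨w, hw⟩) x
    · have := norm_nonneg x; simp only [g]; linarith
    · have a := h1 w hw
      have b := abs_real_inner_le_norm w x
      have c := t2 w
      simp only [g]
      rw [div_mul_eq_mul_div, div_le_iff₀ (by positivity)]
      calc τ w * |inner ℝ w x| ≤ (3 * ‖w‖) * (‖w‖ * ‖x‖) :=
            mul_le_mul (by linarith) b (abs_nonneg _) (by positivity)
        _ = _ := by ring
  have bd : ∀ x, BddAbove (Set.range fun i => g i x) := fun x =>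
    ⟨3 * ‖x‖, by rintro _ ⟨i, rfl⟩; exact gb i x⟩
  refine ⟨fun x => ⨆ i, g i x, fun x y => ciSup_le fun i => ?_, fun c x => ?_,
    fun x => le_ciSup (bd x) none, fun x => ciSup_le fun i => gb i x, fun v hv => ?_⟩
  · refine le_trans ?_ (add_le_add (le_ciSup (bd x) i) (le_ciSup (bd y) i))
    rcases i with _ | ⟨w, hw⟩
    · exact norm_add_le x y
    · simp only [g]
      rw [inner_add_right, ← mul_add]
      exact mul_le_mul_of_nonneg_left (abs_add_le _ _) (div_nonneg (t0 w) (by positivity))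
  · rw [Real.mul_iSup_of_nonneg (abs_nonneg c)]
    refine iSup_congr fun i => ?_
    rcases i with _ | ⟨w, hw⟩
    · simp [g, norm_smul]
    · simp only [g]
      rw [inner_smul_right, abs_mul]; ring
  · have self : ∀ w ∈ W, τ w / ‖w‖ ^ 2 * |inner ℝ w w| = τ w := by
      intro w hw
      have a := h1 w hw
      rw [real_inner_self_eq_norm_sq, abs_of_nonneg (by positivity)]
      field_simp
    apply le_antisymm
    · refine ciSup_le ?_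
      rintro (_ | ⟨w, hw⟩)
      · exact t1 v
      · simp only [g]
        rcases h2 w hw v hv with e | e | e
        · rw [e]; exact (self w hw).le
        · rw [e, inner_neg_right, abs_neg, norm_neg]; exact (self w hw).le
        · refine le_trans ?_ (t1 v)
          have a := h1 w hw
          rw [div_mul_eq_mul_div, div_le_iff₀ (by positivity)]
          refine abs_le_of_sq_le_sq' ?_ (by positivity) |>.2
          rw [mul_pow, sq_abs]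
          have b : τ w ^ 2 ≤ (‖w‖ + 2) ^ 2 := pow_le_pow_left₀ (t0 w) (t2 w) 2
          calc τ w ^ 2 * inner ℝ w v ^ 2 ≤ (‖w‖ + 2) ^ 2 * ((‖w‖ ^ 2 - 4 * ‖w‖) * ‖v‖ ^ 2) :=
                mul_le_mul b e (by positivity) (by positivity)
            _ = (‖v‖ * ‖w‖ ^ 2) ^ 2 - (12 * ‖w‖ ^ 2 + 16 * ‖w‖) * ‖v‖ ^ 2 := by ring
            _ ≤ _ := sub_le_self _ (by positivity)
    · exact le_ciSup_of_le (bd v) (some ⟨v, hv⟩) (self v hv).ge

theorem lagrange {ι : Type} [Fintype ι] (a b : ι → ℤ) :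
    (∀ i j, a i * b j = a j * b i) ∨ (∑ i, a i * b i) ^ 2 + 1 ≤ (∑ i, a i ^ 2) * ∑ i, b i ^ 2 := by
  by_cases h : ∀ i j, a i * b j = a j * b i
  · exact Or.inl h
  right
  push Not at h
  obtain ⟨i, j, h⟩ := h
  have e : ∑ i, ∑ j, (a i * b j - a j * b i) ^ 2 =
      2 * ((∑ i, a i ^ 2) * ∑ i, b i ^ 2) - 2 * (∑ i, a i * b i) ^ 2 := by
    have e1 : ∑ i, ∑ j, a i ^ 2 * b j ^ 2 = (∑ i, a i ^ 2) * ∑ i, b i ^ 2 := by
      rw [sum_mul_sum]
    have e2 : ∑ i, ∑ j, a j ^ 2 * b i ^ 2 = (∑ i, a i ^ 2) * ∑ i, b i ^ 2 := by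
      rw [sum_comm, sum_mul_sum]
    have e3 : ∑ i, ∑ j, (a i * b i) * (a j * b j) = (∑ i, a i * b i) ^ 2 := by
      rw [sq, sum_mul_sum]
    have e4 : ∑ i, ∑ j, (a i * b j - a j * b i) ^ 2 = ∑ i, ∑ j, a i ^ 2 * b j ^ 2 +
        ∑ i, ∑ j, a j ^ 2 * b i ^ 2 - 2 * ∑ i, ∑ j, (a i * b i) * (a j * b j) := by
      simp only [mul_sum, ← sum_add_distrib, ← sum_sub_distrib]
      exact sum_congr rfl fun i _ => sum_congr rfl fun j _ => by ring
    rw [e4, e1, e2, e3]; ring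
  have p : 0 < ∑ i, ∑ j, (a i * b j - a j * b i) ^ 2 := by
    refine sum_pos' (fun _ _ => sum_nonneg fun _ _ => sq_nonneg _) ⟨i, mem_univ _, ?_⟩
    refine sum_pos' (fun _ _ => sq_nonneg _) ⟨j, mem_univ _, ?_⟩
    exact sq_pos_of_ne_zero (sub_ne_zero.2 h)
  omega

abbrev I := Fin 21 × Fin 3

/-- product of moment curves -/
def mc (s : Fin 21 → ℤ) (i : I) : ℤ := s i.1 ^ (i.2.val + 1)

theorem par (s t s' t' : Fin 21 → ℤ) (h : s ≠ t) (h' : s' ≠ t')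
    (H : ∀ i j, (mc s - mc t) i * (mc s' - mc t') j = (mc s - mc t) j * (mc s' - mc t') i) :
    mc s' - mc t' = mc s - mc t ∨ mc s' - mc t' = -(mc s - mc t) := by
  obtain ⟨k, hk⟩ := Function.ne_iff.1 h
  obtain ⟨k', hk'⟩ := Function.ne_iff.1 h'
  have a : s k - t k ≠ 0 := sub_ne_zero.2 hk
  have h0 : ∀ j, (s k - t k) * (mc s' - mc t') j = (mc s - mc t) j * (s' k - t' k) := by
    intro j; simpa [mc] using H (k, 0) j
  have b : s' k - t' k ≠ 0 := by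
    intro e
    have := h0 (k', 0)
    rw [e, mul_zero, mul_eq_zero] at this
    rcases this with q | q
    · exact a q
    · exact hk' (by simpa [mc, sub_eq_zero] using q)
  have h1 := h0 (k, 1)
  have h2 := h0 (k, 2)
  simp only [mc, Pi.sub_apply, Fin.val_one, Fin.val_two, Nat.reduceAdd] at h1 h2
  have e1 : s' k + t' k = s k + t k := by
    apply mul_left_cancel₀ (mul_ne_zero a b); linear_combination h1
  have e2 : s' k ^ 2 + s' k * t' k + t' k ^ 2 = s k ^ 2 + s k * t k + t k ^ 2 := by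
    apply mul_left_cancel₀ (mul_ne_zero a b); linear_combination h2
  have e3 : (s' k - t' k) ^ 2 = (s k - t k) ^ 2 := by
    linear_combination 4 * e2 - 3 * (s' k + t' k + s k + t k) * e1
  rcases sq_eq_sq_iff_eq_or_eq_neg.1 e3 with e | e
  · left; ext j
    apply mul_left_cancel₀ a
    rw [h0 j, e, mul_comm]
  · right; ext j
    apply mul_left_cancel₀ a
    rw [h0 j, e, Pi.neg_apply]; ring

/-- the scale factor -/
def K (M : ℕ) : ℝ := 4 * (63 * (M : ℝ) ^ 6) ^ 2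

/-- embedding at scale `M` -/
noncomputable def emb (M : ℕ) (a : I → ℤ) : EuclideanSpace ℝ (Fin 2 × I) :=
  WithLp.toLp 2 fun i => K M * (if i.1 = 0 then (M : ℝ) else 1) * a i.2

theorem emb_sub (M : ℕ) (a b : I → ℤ) : emb M a - emb M b = emb M (a - b) := by
  ext i; simp only [emb, PiLp.sub_apply, Pi.sub_apply, Int.cast_sub]; ring

theorem emb_neg (M : ℕ) (a : I → ℤ) : emb M (-a) = -emb M a := by
  ext i; simp [emb]

theorem inner_emb (M L : ℕ) (a b : I → ℤ) : inner ℝ (emb M a) (emb L b) =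
    K M * K L * (M * L + 1) * ((∑ i, a i * b i : ℤ) : ℝ) := by
  rw [PiLp.inner_apply, Fintype.sum_prod_type, Fin.sum_univ_two]
  simp only [emb, RCLike.inner_apply, conj_trivial, Int.cast_sum, Int.cast_mul, mul_sum,
    ← sum_add_distrib]
  refine sum_congr rfl fun i _ => ?_
  simp
  ring

theorem norm_emb (M : ℕ) (a : I → ℤ) :
    ‖emb M a‖ ^ 2 = K M ^ 2 * (M ^ 2 + 1) * ((∑ i, a i ^ 2 : ℤ) : ℝ) := by
  rw [← real_inner_self_eq_norm_sq, inner_emb]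
  simp only [sq]

theorem bound (M : ℕ) (a : I → ℤ) (h : ∀ i, |a i| ≤ (M : ℤ) ^ 3) :
    ∑ i, a i ^ 2 ≤ 63 * (M : ℤ) ^ 6 := by
  have : ∀ i ∈ (univ : Finset I), a i ^ 2 ≤ (M : ℤ) ^ 6 := fun i _ => by
    have := pow_le_pow_left₀ (abs_nonneg _) (h i) 2
    rw [sq_abs] at this
    linarith
  simpa using sum_le_card_nsmul _ _ _ this

theorem mc_bd (M : ℕ) (s : Fin 21 → ℤ) (hs : ∀ k, 0 ≤ s k ∧ s k < M) (i : I) :
    0 ≤ mc s i ∧ mc s i ≤ (M : ℤ) ^ 3 := by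
  obtain ⟨h1, h2⟩ := hs i.1
  refine ⟨pow_nonneg h1 _, (pow_le_pow_left₀ h1 h2.le _).trans ?_⟩
  exact pow_le_pow_right₀ (by omega) (by have := i.2.2; omega)

/-- admissible differences at scale `M` -/
def Adm (M : ℕ) (a : I → ℤ) : Prop := ∃ s t : Fin 21 → ℤ, (∀ k, 0 ≤ s k ∧ s k < M) ∧
  (∀ k, 0 ≤ t k ∧ t k < M) ∧ s ≠ t ∧ a = mc s - mc t

theorem adm (M : ℕ) (a : I → ℤ) (h : Adm M a) :
    1 ≤ M ∧ 1 ≤ ∑ i, a i ^ 2 ∧ ∑ i, a i ^ 2 ≤ 63 * (M : ℤ) ^ 6 := by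
  obtain ⟨s, t, hs, ht, hne, rfl⟩ := h
  refine ⟨by have := hs 0; omega, ?_, bound M _ fun i => ?_⟩
  · obtain ⟨k, hk⟩ := Function.ne_iff.1 hne
    refine Int.add_one_le_of_lt (a := 0) (sum_pos' (fun _ _ => sq_nonneg _)
      ⟨((k, 0) : I), mem_univ _, sq_pos_of_ne_zero ?_⟩)
    simpa [mc, sub_eq_zero] using hk
  · have := mc_bd M s hs i
    have := mc_bd M t ht i
    rw [Pi.sub_apply, abs_le]
    constructor <;> linarith

theorem K_le (M : ℕ) (a : I → ℤ) (h : Adm M a) : 1 ≤ K M ∧ K M ≤ ‖emb M a‖ := by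
  obtain ⟨h1, h2, -⟩ := adm M a h
  have m : (1 : ℝ) ≤ M := by exact_mod_cast h1
  have k : 1 ≤ K M := by
    have := one_le_pow₀ (n := 6) m
    unfold K; nlinarith
  refine ⟨k, (abs_le_of_sq_le_sq' ?_ (norm_nonneg _)).2⟩
  rw [norm_emb, mul_assoc]
  have : (1 : ℝ) ≤ ((∑ i, a i ^ 2 : ℤ) : ℝ) := by exact_mod_cast h2
  exact le_mul_of_one_le_right (by positivity) (by nlinarith)

theorem cross (M L : ℝ) (hM : 1 ≤ M) (hL : 1 ≤ L) (h : M + 1 ≤ L ∨ L + 1 ≤ M) :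
    4 * ((M ^ 2 + 1) * (L ^ 2 + 1)) ≤ 4 * (63 * M ^ 6) ^ 2 * (M - L) ^ 2 := by
  have m2 : 1 ≤ M ^ 2 := one_le_pow₀ hM
  have m4 : M ^ 4 ≤ M ^ 12 := pow_le_pow_right₀ hM (by norm_num)
  have key : (L ^ 2 + 1) ≤ 8 * M ^ 2 * (M - L) ^ 2 := by
    rcases h with h | h
    · have a : L ≤ (L - M) * (2 * M) := by nlinarith
      have b := pow_le_pow_left₀ (by linarith) a 2
      have c : 1 ≤ L ^ 2 := one_le_pow₀ hL
      nlinarith
    · have a : 1 ≤ (M - L) ^ 2 := one_le_pow₀ (by linarith)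
      have b : L ^ 2 ≤ M ^ 2 := pow_le_pow_left₀ (by linarith) (by linarith) 2
      nlinarith
  have q := sq_nonneg (M - L)
  calc 4 * ((M ^ 2 + 1) * (L ^ 2 + 1)) ≤ 4 * ((2 * M ^ 2) * (8 * M ^ 2 * (M - L) ^ 2)) := by
        gcongr; linarith
    _ = 64 * M ^ 4 * (M - L) ^ 2 := by ring
    _ ≤ (4 * 63 ^ 2 * M ^ 12) * (M - L) ^ 2 := by
        refine mul_le_mul_of_nonneg_right ?_ q
        have : 0 ≤ M ^ 12 := by positivity
        linarith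
    _ = _ := by ring

theorem sepa (M L : ℕ) (a b : I → ℤ) (ha : Adm M a) (hb : Adm L b) :
    emb L b = emb M a ∨ emb L b = -emb M a ∨ (inner ℝ (emb M a) (emb L b)) ^ 2 ≤
      (‖emb M a‖ ^ 2 - 4 * ‖emb M a‖) * ‖emb L b‖ ^ 2 := by
  obtain ⟨k1, k2⟩ := K_le M a ha
  obtain ⟨m1, a1, a2⟩ := adm M a ha
  obtain ⟨l1, b1, b2⟩ := adm L b hb
  have red : K M * (inner ℝ (emb M a) (emb L b)) ^ 2 ≤
      (K M - 4) * (‖emb M a‖ ^ 2 * ‖emb L b‖ ^ 2) → (inner ℝ (emb M a) (emb L b)) ^ 2 ≤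
      (‖emb M a‖ ^ 2 - 4 * ‖emb M a‖) * ‖emb L b‖ ^ 2 := by
    intro h
    refine le_of_mul_le_mul_left (h.trans ?_) (by linarith : 0 < K M)
    have : 0 ≤ ‖emb M a‖ * ‖emb L b‖ ^ 2 * (‖emb M a‖ - K M) :=
      mul_nonneg (by positivity) (by linarith)
    nlinarith
  have m : (1 : ℝ) ≤ M := by exact_mod_cast m1
  have l : (1 : ℝ) ≤ L := by exact_mod_cast l1
  have cs : (∑ i, a i * b i) ^ 2 ≤ (∑ i, a i ^ 2) * ∑ i, b i ^ 2 := sum_mul_sq_le_sq_mul_sq _ _ _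
  have kk : K M = 4 * (63 * (M : ℝ) ^ 6) ^ 2 := rfl
  by_cases e : M = L
  · subst e
    rcases lagrange a b with h | h
    · obtain ⟨s, t, -, -, hne, rfl⟩ := ha
      obtain ⟨s', t', -, -, hne', rfl⟩ := hb
      rcases par s t s' t' hne hne' h with q | q
      · left; rw [q]
      · right; left; rw [q, emb_neg]
    · right; right
      apply red
      rw [inner_emb, norm_emb, norm_emb]
      have h' : ((∑ i, a i * b i : ℤ) : ℝ) ^ 2 + 1 ≤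
          ((∑ i, a i ^ 2 : ℤ) : ℝ) * ((∑ i, b i ^ 2 : ℤ) : ℝ) := by exact_mod_cast h
      have a2' : ((∑ i, a i ^ 2 : ℤ) : ℝ) ≤ 63 * (M : ℝ) ^ 6 := by exact_mod_cast a2
      have b2' : ((∑ i, b i ^ 2 : ℤ) : ℝ) ≤ 63 * (M : ℝ) ^ 6 := by exact_mod_cast b2
      have b1' : (1 : ℝ) ≤ ((∑ i, b i ^ 2 : ℤ) : ℝ) := by exact_mod_cast b1
      generalize ((∑ i, a i * b i : ℤ) : ℝ) = P at *
      generalize ((∑ i, a i ^ 2 : ℤ) : ℝ) = A at *
      generalize ((∑ i, b i ^ 2 : ℤ) : ℝ) = B at *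
      have ab : 4 * (A * B) ≤ K M := by
        have := mul_le_mul a2' b2' (by linarith) (by positivity)
        rw [kk]; nlinarith
      have z : K M * P ^ 2 ≤ (K M - 4) * (A * B) := by nlinarith
      calc K M * (K M * K M * (M * M + 1) * P) ^ 2
          = (K M ^ 4 * (M ^ 2 + 1) ^ 2) * (K M * P ^ 2) := by ring
        _ ≤ (K M ^ 4 * (M ^ 2 + 1) ^ 2) * ((K M - 4) * (A * B)) := by gcongr
        _ = _ := by ring
  · right; right
    apply red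
    rw [inner_emb, norm_emb, norm_emb]
    have h' : ((∑ i, a i * b i : ℤ) : ℝ) ^ 2 ≤
        ((∑ i, a i ^ 2 : ℤ) : ℝ) * ((∑ i, b i ^ 2 : ℤ) : ℝ) := by exact_mod_cast cs
    generalize ((∑ i, a i * b i : ℤ) : ℝ) = P at *
    generalize ((∑ i, a i ^ 2 : ℤ) : ℝ) = A at *
    generalize ((∑ i, b i ^ 2 : ℤ) : ℝ) = B at *
    have c := cross M L m l (by
      rcases lt_or_gt_of_ne e with q | q
      · left; exact_mod_cast q
      · right; exact_mod_cast q)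
    rw [← kk] at c
    have z : K M * (M * L + 1) ^ 2 ≤ (K M - 4) * ((M ^ 2 + 1) * (L ^ 2 + 1)) := by nlinarith
    have ab : 0 ≤ A * B := (sq_nonneg _).trans h'
    calc K M * (K M * K L * (M * L + 1) * P) ^ 2
        = (K M ^ 2 * K L ^ 2) * (K M * (M * L + 1) ^ 2) * P ^ 2 := by ring
      _ ≤ (K M ^ 2 * K L ^ 2) * (K M * (M * L + 1) ^ 2) * (A * B) := by gcongr
      _ ≤ (K M ^ 2 * K L ^ 2) * ((K M - 4) * ((M ^ 2 + 1) * (L ^ 2 + 1))) * (A * B) := by gcongr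
      _ = _ := by ring

theorem size (M : ℕ) (hM : 1 ≤ M) (s : Fin 21 → ℤ) (hs : ∀ k, 0 ≤ s k ∧ s k < M) :
    3 * ‖emb M (mc s)‖ ≤ 10 ^ 6 * (M : ℝ) ^ 16 := by
  have m : (1 : ℝ) ≤ M := by exact_mod_cast hM
  have h := bound M (mc s) fun i => by
    have := mc_bd M s hs i
    rw [abs_of_nonneg this.1]; exact this.2
  have h' : ((∑ i, mc s i ^ 2 : ℤ) : ℝ) ≤ 63 * (M : ℝ) ^ 6 := by exact_mod_cast h
  refine (abs_le_of_sq_le_sq' ?_ (by positivity)).2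
  rw [mul_pow, norm_emb]
  have m2 : (M : ℝ) ^ 2 + 1 ≤ 2 * M ^ 2 := by have := one_le_pow₀ (n := 2) m; linarith
  calc 3 ^ 2 * (K M ^ 2 * (M ^ 2 + 1) * ((∑ i, mc s i ^ 2 : ℤ) : ℝ))
      ≤ 3 ^ 2 * (K M ^ 2 * (2 * M ^ 2) * (63 * (M : ℝ) ^ 6)) := by
        have : (0 : ℝ) ≤ ((∑ i, mc s i ^ 2 : ℤ) : ℝ) := by positivity
        gcongr
    _ = (9 * 16 * 2 * 63 ^ 5) * (M : ℝ) ^ 32 := by unfold K; ring
    _ ≤ (10 ^ 12) * (M : ℝ) ^ 32 := by gcongr; norm_num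
    _ = _ := by ring

theorem main : ∃ N : EuclideanSpace ℝ (Fin 2 × I) → ℝ,
    (∀ x y, N (x + y) ≤ N x + N y) ∧ (∀ (c : ℝ) x, N (c • x) = |c| * N x) ∧
    (∀ x, ‖x‖ ≤ N x) ∧ ∀ C : ℝ, ∃ X0 : ℝ, ∀ X ≥ X0,
      ∃ (n : ℕ) (p : Fin n → EuclideanSpace ℝ (Fin 2 × I)), C * X ≤ n ∧ (∀ i, N (p i) ≤ X) ∧
        ∀ i j, i ≠ j → ∃ z : ℤ, N (p i - p j) = z + 1 / 2 := by
  obtain ⟨N, n1, n2, n3, n4, n5⟩ := exists_norm {w | ∃ M a, Adm M a ∧ w = emb M a}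
    (by rintro _ ⟨M, a, h, rfl⟩; exact (K_le M a h).1.trans (K_le M a h).2)
    (by rintro _ ⟨M, a, h, rfl⟩ _ ⟨L, b, h', rfl⟩; exact sepa M L a b h h')
  refine ⟨N, n1, n2, n3, fun C => ?_⟩
  obtain ⟨M0, hM0⟩ := exists_nat_ge (|C| * (10 ^ 6 * 2 ^ 16) + 1)
  refine ⟨10 ^ 6 * (M0 : ℝ) ^ 16, fun X hX => ?_⟩
  have hex : ∃ M : ℕ, X < 10 ^ 6 * ((M + 1 : ℕ) : ℝ) ^ 16 := by
    obtain ⟨M, hM⟩ := exists_nat_gt X
    refine ⟨M, hM.trans_le ?_⟩
    have a : (1 : ℝ) ≤ (M + 1 : ℕ) := by exact_mod_cast Nat.le_add_left 1 M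
    have b := le_self_pow₀ a (by norm_num : 16 ≠ 0)
    have c : (M : ℝ) ≤ (M + 1 : ℕ) := by exact_mod_cast Nat.le_succ M
    have d : (0 : ℝ) ≤ M := Nat.cast_nonneg M
    nlinarith
  classical
  obtain ⟨M, h1, h2⟩ : ∃ M : ℕ, X < 10 ^ 6 * ((M + 1 : ℕ) : ℝ) ^ 16 ∧
      ∀ L < M, ¬ X < 10 ^ 6 * ((L + 1 : ℕ) : ℝ) ^ 16 :=
    ⟨Nat.find hex, Nat.find_spec hex, fun L hL => Nat.find_min hex hL⟩
  have c0 := abs_nonneg C
  have hM : M0 ≤ M := by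
    by_contra h
    have a : ((M + 1 : ℕ) : ℝ) ≤ M0 := by exact_mod_cast (by omega : M + 1 ≤ M0)
    have b := pow_le_pow_left₀ (by positivity) a 16
    linarith
  have hM' : (M0 : ℝ) ≤ M := by exact_mod_cast hM
  have m : (1 : ℝ) ≤ M := by nlinarith
  have m1 : 1 ≤ M := by exact_mod_cast m
  have h3 : 10 ^ 6 * (M : ℝ) ^ 16 ≤ X := by
    have := h2 (M - 1) (by omega)
    rw [Nat.sub_add_cancel m1] at this
    exact not_lt.1 this
  let e := (Fintype.equivFin (Fin 21 → Fin M)).symm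
  let s : Fin (Fintype.card (Fin 21 → Fin M)) → Fin 21 → ℤ := fun i k => (e i k).val
  have hs : ∀ i k, 0 ≤ s i k ∧ s i k < M := fun i k =>
    ⟨Int.natCast_nonneg _, Int.ofNat_lt.2 (e i k).2⟩
  refine ⟨_, fun i => emb M (mc (s i)), ?_, fun i => ?_, fun i j hij => ?_⟩
  · have x0 : 0 ≤ X := le_trans (by positivity) h3
    have a : ((M + 1 : ℕ) : ℝ) ≤ 2 * M := by push_cast; linarith
    have b := pow_le_pow_left₀ (by positivity) a 16
    have c : (M : ℝ) ^ 17 ≤ M ^ 21 := pow_le_pow_right₀ m (by norm_num)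
    simp only [Fintype.card_pi, Fintype.card_fin, prod_const, card_univ, Nat.cast_pow]
    calc C * X ≤ |C| * X := mul_le_mul_of_nonneg_right (le_abs_self C) x0
      _ ≤ |C| * (10 ^ 6 * (2 * M) ^ 16) := by gcongr; linarith
      _ = (|C| * (10 ^ 6 * 2 ^ 16)) * M ^ 16 := by ring
      _ ≤ M * M ^ 16 := by gcongr; linarith
      _ = M ^ 17 := by ring
      _ ≤ _ := c
  · exact (n4 _).trans ((size M m1 _ (hs i)).trans h3)
  · rw [emb_sub]
    refine ⟨_, n5 _ ⟨M, _, ⟨s i, s j, hs i, hs j, fun q => hij (e.injective ?_), rfl⟩, rfl⟩⟩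
    ext k
    exact Int.natCast_inj.1 (congrFun q k)

end Pool.Agent.H.MP_af7c6a_co
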